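import Pool.Agent.helper44.KR.SpecJ

/-! # kr:KI : injective homomorphisms of the coefficients are isometric on `DD` -/

noncomputable section

namespace Pool.Agent.helper44.KR

theorem KI : KI_stmt := by
  intro p q B C _ _ φ hφ f
  refine NonUnitalStarAlgHom.norm_map (DD.map p q φ) ?_ f
  intro g h hgh
  apply Subtype.ext
  apply ContinuousMap.ext
  intro t
  refine MB.ext fun i j => ?_
  apply hφ
  rw [← DD.map_apply, ← DD.map_apply, hgh]

end Pool.Agent.helper44.KR
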